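import Pool.Agent.TBP.StmtsA
import Pool.Agent.Helper69_Weyl.Divisor

/-! # TBP, row SER: a convergent series (helper76) -/

set_option autoImplicit false

namespace Pool.Agent.TBP.H76

open Finset

theorem ser : SerStmt := by
  intro η hη
  obtain ⟨C, hC1, hC⟩ := Pool.Agent.Helper69_Weyl.exists_card_divisors_le (η / 12) (by positivity)
  have hsum : Summable (fun k : ℕ => (k : ℝ) ^ (-(1 + η / 2))) := by
    rw [Real.summable_nat_rpow]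
    linarith
  have hnn : ∀ k : ℕ, 0 ≤ (k : ℝ) ^ (-(1 + η / 2)) := fun k => Real.rpow_nonneg (Nat.cast_nonneg k) _
  have hT : 0 ≤ ∑' k : ℕ, (k : ℝ) ^ (-(1 + η / 2)) := tsum_nonneg hnn
  refine ⟨C ^ 6 * (∑' k : ℕ, (k : ℝ) ^ (-(1 + η / 2))) + 1, by positivity, fun N => ?_⟩
  have hterm : ∀ k ∈ Icc 1 N, (k.divisors.card : ℝ) ^ 6 * (k : ℝ) ^ (-(1 + η)) ≤
      C ^ 6 * (k : ℝ) ^ (-(1 + η / 2)) := by
    intro k hk
    have hk1 : 1 ≤ k := (Finset.mem_Icc.1 hk).1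
    have hk0 : (0 : ℝ) < k := by exact_mod_cast hk1
    have h1 : (k.divisors.card : ℝ) ^ 6 ≤ (C * (k : ℝ) ^ (η / 12)) ^ 6 :=
      pow_le_pow_left₀ (Nat.cast_nonneg _) (hC k (by omega)) 6
    have h2 : (C * (k : ℝ) ^ (η / 12)) ^ 6 = C ^ 6 * (k : ℝ) ^ (η / 2) := by
      rw [mul_pow, ← Real.rpow_natCast ((k : ℝ) ^ (η / 12)) 6, ← Real.rpow_mul hk0.le]
      congr 2
      push_cast
      ring
    rw [h2] at h1
    calc (k.divisors.card : ℝ) ^ 6 * (k : ℝ) ^ (-(1 + η))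
        ≤ C ^ 6 * (k : ℝ) ^ (η / 2) * (k : ℝ) ^ (-(1 + η)) :=
          mul_le_mul_of_nonneg_right h1 (Real.rpow_nonneg hk0.le _)
      _ = C ^ 6 * (k : ℝ) ^ (-(1 + η / 2)) := by
          rw [mul_assoc, ← Real.rpow_add hk0]
          congr 2
          ring
  calc ∑ k ∈ Icc 1 N, (k.divisors.card : ℝ) ^ 6 * (k : ℝ) ^ (-(1 + η))
      ≤ ∑ k ∈ Icc 1 N, C ^ 6 * (k : ℝ) ^ (-(1 + η / 2)) := Finset.sum_le_sum hterm
    _ = C ^ 6 * ∑ k ∈ Icc 1 N, (k : ℝ) ^ (-(1 + η / 2)) := by rw [Finset.mul_sum]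
    _ ≤ C ^ 6 * ∑' k : ℕ, (k : ℝ) ^ (-(1 + η / 2)) := by
        apply mul_le_mul_of_nonneg_left _ (by positivity)
        exact hsum.sum_le_tsum _ (fun k _ => hnn k)
    _ ≤ C ^ 6 * (∑' k : ℕ, (k : ℝ) ^ (-(1 + η / 2))) + 1 := by linarith

end Pool.Agent.TBP.H76
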